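import Pool.Agent.helper59.BR.SpecH
import Pool.Agent.helper98.LZ.ZOR

/-! Row HGR of block H (project BR): the Gram formula for `PP`. -/

set_option autoImplicit false

namespace Pool.Agent.BR

open Pool.Agent.helper58.DC Pool.Agent.DI Pool.Agent.GR Pool.Agent.OB Pool.Agent.DR Pool.Agent.FI Pool.Agent.FI3 Pool.Agent.FI4 Pool.Agent.LE

/-- The collapse of a double sum over a reproducing matrix. -/
theorem HGR_col {α : Type} (S : Finset α) (E : α → α → ℂ) (d c : α → ℂ)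
    (hE : ∀ a ∈ S, ∀ b ∈ S, ∑ x ∈ S, E a x * E x b = E a b) :
    ∑ η ∈ S, (∑ ζ ∈ S, d ζ * E ζ η) * (∑ ξ ∈ S, c ξ * E η ξ) = ∑ ξ ∈ S, c ξ * ∑ ζ ∈ S, d ζ * E ζ ξ := by
  have h1 : ∀ η ∈ S, (∑ ζ ∈ S, d ζ * E ζ η) * (∑ ξ ∈ S, c ξ * E η ξ) =
      (∑ ζ ∈ S, E ζ η * d ζ) * (∑ ξ ∈ S, E η ξ * c ξ) := by
    intro η _
    have e1 : (∑ ζ ∈ S, d ζ * E ζ η) = ∑ ζ ∈ S, E ζ η * d ζ :=
      Finset.sum_congr rfl fun _ _ => mul_comm _ _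
    have e2 : (∑ ξ ∈ S, c ξ * E η ξ) = ∑ ξ ∈ S, E η ξ * c ξ :=
      Finset.sum_congr rfl fun _ _ => mul_comm _ _
    rw [e1, e2]
  rw [Finset.sum_congr rfl h1]
  rw [ZOR_gen S S (fun η ζ => E ζ η) (fun η ξ => E η ξ) d c, Finset.sum_comm]
  refine Finset.sum_congr rfl fun ξ hξ => ?_
  rw [Finset.mul_sum]
  refine Finset.sum_congr rfl fun ζ hζ => ?_
  rw [hE ζ hζ ξ hξ]
  ring

set_option linter.unusedVariables false in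
theorem HGR (hHAX : HAX_stmt) (hZAX : ZAX_stmt) (hQEI : QEI_stmt) (hBLE : BLE_stmt) (hQRS : QRS_stmt) (hSTC : STC_stmt) (hB2 : B2_stmt) : HGR_stmt := by
  classical
  intro p M hM G _ _ θ u ψ hψ ψ' hψ'
  obtain ⟨K, hK⟩ : ∃ K : Subgroup G, K = Cz (⊤ : Subgroup G) u := ⟨_, rfl⟩
  have huK : u ∈ Cz (⊤ : Subgroup G) u := mem_Cz.2 ⟨Subgroup.mem_top _, rfl⟩
  have hCen : Cen (Cz (⊤ : Subgroup G) u) u := fun l hl => (mem_Cz.1 hl).2.symm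
  have hX := hHAX p M hM G θ u ψ hψ ψ' hψ'
  have hZ := fun η₀ hη₀ => hZAX p M hM G (Cz (⊤ : Subgroup G) u) θ η₀ hη₀ u huK hCen
  obtain ⟨q1, q2, q3, q4⟩ := hQEI p M hM G (Cz (⊤ : Subgroup G) u)
    (Bl M (Cz (⊤ : Subgroup G) u) θ) (Q1_BC M (Cz (⊤ : Subgroup G) u) 1 θ).1
  rw [← hK] at hX hZ q1 q2 q3 q4 huK ⊢
  -- the finite set
  have hSfin : (Bl M K θ).Finite := (hB2 G K).1.subset fun ψ h => h.1
  obtain ⟨S, hS⟩ : ∃ S : Finset (G → ℂ), ∀ ψ, ψ ∈ S ↔ ψ ∈ Bl M K θ :=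
    ⟨hSfin.toFinset, fun ψ => hSfin.mem_toFinset⟩
  have hsS : ∀ f : (G → ℂ) → ℂ, ∑ᶠ ψ ∈ Bl M K θ, f ψ = ∑ ψ ∈ S, f ψ := by
    intro f
    have : (S : Set (G → ℂ)) = Bl M K θ := by
      ext ψ
      exact hS ψ
    rw [← this, finsum_mem_coe_finset]
  have hI : ∀ η, η ∈ S → η ∈ IrrOn K := fun η h => ((hS η).1 h).1
  -- the conjugates of the coefficients
  have hcc : ∀ η ∈ S, (starRingEnd ℂ) (mt K ψ' η * (η u / η 1)) = mt K ψ' η * (η u⁻¹ / η 1) := by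
    intro η hη
    obtain ⟨n, hn⟩ := (hQRS G ⊤ K le_top ψ' hψ').1 η (hI η hη)
    obtain ⟨⟨m, _, hm, _⟩, _⟩ := (hB2 G K).2 η (hI η hη)
    rw [map_mul, map_div₀, hn, hm, ← hSTC G K η (hI η hη) u]
    simp
  rw [hX, hsS, hsS]
  have hcj : ∀ η ∈ S, (starRingEnd ℂ) (az p K η ψ' u) =
      ∑ ξ ∈ S, (mt K ψ' ξ * (ξ u⁻¹ / ξ 1)) * EE p K η ξ := by
    intro η hη
    rw [hZ η ((hS η).1 hη) ψ' hψ', hsS, map_sum]
    refine Finset.sum_congr rfl fun ξ hξ => ?_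
    rw [map_mul, hcc ξ hξ, ← q3 ξ (hI ξ hξ) η (hI η hη)]
  have hR : ∑ η ∈ S, az p K η ψ u * (starRingEnd ℂ) (az p K η ψ' u) =
      ∑ η ∈ S, (∑ ζ ∈ S, (mt K ψ ζ * (ζ u / ζ 1)) * EE p K ζ η) *
        (∑ ξ ∈ S, (mt K ψ' ξ * (ξ u⁻¹ / ξ 1)) * EE p K η ξ) := by
    refine Finset.sum_congr rfl fun η hη => ?_
    rw [hcj η hη, hZ η ((hS η).1 hη) ψ hψ, hsS]
  rw [hR, HGR_col S (fun a b => EE p K a b) (fun ζ => mt K ψ ζ * (ζ u / ζ 1))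
    (fun ξ => mt K ψ' ξ * (ξ u⁻¹ / ξ 1))]
  · refine Finset.sum_congr rfl fun ξ hξ => ?_
    rw [hZ ξ ((hS ξ).1 hξ) ψ hψ, hsS]
  · intro a ha b hb
    rw [← hsS]
    exact q1 a ((hS a).1 ha) b ((hS b).1 hb)

end Pool.Agent.BR
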