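import Pool.Agent.helper45.BR.Spec

/-! # Project br, module MXP: maximum principle -/

set_option autoImplicit false

open Complex Metric Set Filter Topology MeasureTheory MPS Pool.Agent.helper98.ILF
  Pool.Agent.helper16.Multibrot

noncomputable section

namespace BR

theorem MXP_diff (n : ℕ) (c : ℂ) (k : ℕ) : Differentiable ℂ (fun z : ℂ => (fun z : ℂ => z ^ n + c)^[k] z) := by
  have h0 : Differentiable ℂ (fun z : ℂ => z ^ n + c) := (differentiable_id.pow n).add_const c
  exact h0.iterate k

theorem MXP : MXP_stmt := by
  intro n c N _ hb hfr z hz k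
  exact Complex.norm_le_of_forall_mem_frontier_norm_le hb (MXP_diff n c k).diffContOnCl
    (fun w hw => hfr hw k) (subset_closure hz)

end BR
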