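import Pool.Agent.helper45.BR.Spec

/-! # Project br, module REP: representation of the vector field -/

set_option autoImplicit false

open Complex Metric Set Filter Topology MeasureTheory MPS Pool.Agent.helper98.ILF
  Pool.Agent.helper16.Multibrot

noncomputable section

namespace BR

theorem REP_cont {φ : ℂ → ℂ} (h : ContDiff ℝ 2 φ) : Continuous (dbar φ) := by
  have h1 : Continuous (fderiv ℝ φ) := h.continuous_fderiv (by norm_num)
  unfold dbar
  exact ((h1.clm_apply continuous_const).add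
    (continuous_const.mul (h1.clm_apply continuous_const))).div_const 2

theorem REP_supp {φ : ℂ → ℂ} (h : HasCompactSupport φ) : HasCompactSupport (dbar φ) := by
  have h1 : HasCompactSupport (fderiv ℝ φ) := h.fderiv ℝ
  refine h1.mono' ?_
  intro z hz
  refine subset_closure ?_
  intro h0
  refine hz ?_
  unfold dbar
  rw [h0]
  simp

theorem REP_int {f φ : ℂ → ℂ} (hf : Continuous f) (h : ContDiff ℝ 2 φ) (h' : HasCompactSupport φ) :
    Integrable (fun z => f z * dbar φ z) :=
  (hf.mul (REP_cont h)).integrable_of_hasCompactSupport ((REP_supp h').mul_left)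

theorem REP (hWKA : WKA_stmt) (hWKB : WKB_stmt) (hWEY : WEY_stmt) (hDIS : DIS_stmt)
    (hHLZ : HLZ_stmt) (hCTB : NLF.CTB_stmt) : REP_stmt := by
  intro v M K hM hK hK4 hv hvd hv0 hCR
  obtain ⟨u, hu1, hu2, hu3⟩ := hWKA v M hM hv hCR
  obtain ⟨𝒰, m0, h𝒰, hm1, hm2, hm3⟩ := hWKB u M hM (fun j => (hu1 j).measurable) hu2
  have hm4 : ∀ φ : ℂ → ℂ, ContDiff ℝ 2 φ → HasCompactSupport φ →
      ∫ z : ℂ, v z * dbar φ z = -∫ z : ℂ, m0 z * φ z := by
    intro φ h1 h2
    have h3 := tendsto_nhds_unique ((hu3 φ h1 h2).mono_left h𝒰) (hm3 φ h1.continuous h2)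
    rw [← h3, neg_neg]
  have hae := hHLZ v m0 Kᶜ M hK.isOpen_compl hv hvd hm1 hm2 hm4
  set m : ℂ → ℂ := K.indicator m0 with hm
  have hmeq : m =ᵐ[volume] m0 := by
    filter_upwards [hae] with z hz
    by_cases hzK : z ∈ K
    · rw [hm, indicator_of_mem hzK]
    · rw [hm, indicator_of_notMem hzK, hz hzK]
  have hmm : Measurable m := hm1.indicator hK.measurableSet
  have hmM : ∀ z, ‖m z‖ ≤ M := by
    intro z
    refine (norm_indicator_le_norm_self _ _).trans (hm2 z)
  have hms : ∀ z, m z ≠ 0 → z ∈ K := fun z hz => by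
    by_contra h
    exact hz (indicator_of_notMem h _)
  have hm5 : ∀ φ : ℂ → ℂ, ContDiff ℝ 2 φ → HasCompactSupport φ →
      ∫ z : ℂ, v z * dbar φ z = -∫ z : ℂ, m z * φ z := by
    intro φ h1 h2
    rw [hm4 φ h1 h2]
    congr 1
    refine integral_congr_ae ?_
    filter_upwards [hmeq] with z hz
    rw [hz]
  set M' : ℝ := max M 1 with hM'
  have hM'0 : 0 < M' := lt_of_lt_of_le one_pos (le_max_right _ _)
  have hM'c : (M' : ℂ) ≠ 0 := by exact_mod_cast hM'0.ne'
  have hpi : (Real.pi : ℂ) ≠ 0 := by exact_mod_cast Real.pi_ne_zero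
  set μ : ℂ → ℂ := fun z => m z / M' with hμ
  have hμm : Measurable μ := hmm.div_const _
  have hμ1 : ∀ z, ‖μ z‖ ≤ 1 := by
    intro z
    rw [hμ]
    simp only [norm_div, Complex.norm_real, Real.norm_eq_abs, abs_of_pos hM'0]
    rw [div_le_one hM'0]
    exact (hmM z).trans (le_max_left _ _)
  have hμs : ∀ z, μ z ≠ 0 → ‖z‖ < 4 := by
    intro z hz
    have h1 : m z ≠ 0 := by
      intro h
      exact hz (by rw [hμ]; simp only [h, zero_div])
    have := hK4 (hms z h1)
    rwa [mem_ball_zero_iff] at this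
  obtain ⟨-, -, hc1, hc2⟩ := hCTB μ hμm hμ1 hμs
  have hCT : ∀ b, NLF.CT m b = M' * NLF.CT μ b := by
    intro b
    unfold NLF.CT
    rw [← integral_const_mul]
    refine integral_congr_ae (Eventually.of_forall fun z => ?_)
    simp only [hμ]
    field_simp
  set w : ℂ → ℂ := fun b => v b + (M' / Real.pi : ℂ) * NLF.CT μ b with hw
  have hwc : Continuous w := hv.add (continuous_const.mul hc1)
  have hw0 : ∀ φ : ℂ → ℂ, ContDiff ℝ 2 φ → HasCompactSupport φ →
      ∫ z : ℂ, w z * dbar φ z = 0 := by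
    intro φ h1 h2
    have e1 : ∀ z, w z * dbar φ z = v z * dbar φ z +
        (M' / Real.pi : ℂ) * (NLF.CT μ z * dbar φ z) := by
      intro z
      rw [hw]
      ring
    simp_rw [e1]
    rw [integral_add (REP_int hv h1 h2) ((REP_int hc1 h1 h2).const_mul _), integral_const_mul,
      hDIS μ hμm hμ1 hμs φ (h1.of_le (by norm_num)) h2, hm5 φ h1 h2]
    have e2 : ∫ z : ℂ, m z * φ z = M' * ∫ z : ℂ, μ z * φ z := by
      rw [← integral_const_mul]
      refine integral_congr_ae (Eventually.of_forall fun z => ?_)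
      simp only [hμ]
      field_simp
    rw [e2]
    field_simp
    ring
  have hwd := hWEY w hwc hw0
  have hwt : Tendsto w (cocompact ℂ) (𝓝 0) := by
    rw [← Metric.cobounded_eq_cocompact]
    have := hv0.add (hc2.const_mul (M' / Real.pi : ℂ))
    rwa [mul_zero, add_zero] at this
  have hwz : ∀ b, w b = 0 := fun b => hwd.apply_eq_of_tendsto_cocompact b hwt
  refine ⟨m, hmm, hmM, hms, fun b => ?_, hm5⟩
  have h1 := hwz b
  rw [hCT]
  have h2 : v b = -((M' / Real.pi : ℂ) * NLF.CT μ b) := eq_neg_of_add_eq_zero_left h1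
  rw [h2]
  ring

end BR
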