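import Pool.Agent.helper45.BR.Spec

/-! # Project br, module UNQ: the motions do not collide -/

set_option autoImplicit false

open Complex Metric Set Filter Topology MeasureTheory MPS Pool.Agent.helper98.ILF
  Pool.Agent.helper16.Multibrot

noncomputable section

namespace BR

theorem UNQ_diff (n : ℕ) (c : ℂ) (k : ℕ) : Differentiable ℂ ((fc n c)^[k]) := by
  have h0 : Differentiable ℂ (fc n c) := (differentiable_id.pow n).add_const c
  exact h0.iterate k

theorem UNQ_mlt (n : ℕ) (c z : ℂ) (k : ℕ) :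
    mlt n k c z = ∏ j ∈ Finset.range k, fd n ((fc n c)^[j] z) := by
  induction k with
  | zero =>
    rw [Finset.range_zero, Finset.prod_empty]
    unfold mlt
    rw [Function.iterate_zero]
    exact deriv_id z
  | succ k ih =>
    rw [Finset.prod_range_succ, ← ih]
    have h1 : HasDerivAt (fc n c) (fd n ((fc n c)^[k] z)) ((fc n c)^[k] z) := by
      unfold fd
      exact (hasDerivAt_pow n _).add_const c
    have h2 : HasDerivAt ((fc n c)^[k]) (mlt n k c z) z :=
      ((UNQ_diff n c k).differentiableAt).hasDerivAt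
    unfold mlt
    rw [Function.iterate_succ', (h1.comp z h2).deriv, mul_comm]
    rfl

theorem UNQ_cont (n k : ℕ) : Continuous (fun p : ℂ × ℂ => (fc n p.1)^[k] p.2) := by
  induction k with
  | zero => exact continuous_snd
  | succ k ih =>
    have e : (fun p : ℂ × ℂ => (fc n p.1)^[k + 1] p.2) =
        fun p : ℂ × ℂ => ((fc n p.1)^[k] p.2) ^ n + p.1 := by
      funext p
      rw [Function.iterate_succ_apply']
      rfl
    rw [e]
    exact (ih.pow n).add continuous_fst

/-- the divided difference of the iterate. -/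
def UNQ_Q (n k : ℕ) (c x y : ℂ) : ℂ := ∏ j ∈ Finset.range k, ∑ i ∈ Finset.range n,
  ((fc n c)^[j] x) ^ i * ((fc n c)^[j] y) ^ (n - 1 - i)

theorem UNQ_dd (n k : ℕ) (c x y : ℂ) :
    (fc n c)^[k] x - (fc n c)^[k] y = UNQ_Q n k c x y * (x - y) := by
  induction k with
  | zero =>
    unfold UNQ_Q
    rw [Finset.range_zero, Finset.prod_empty, one_mul]
    rfl
  | succ k ih =>
    have e : UNQ_Q n (k + 1) c x y = UNQ_Q n k c x y * ∑ i ∈ Finset.range n,
        ((fc n c)^[k] x) ^ i * ((fc n c)^[k] y) ^ (n - 1 - i) := Finset.prod_range_succ _ _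
    rw [e, mul_right_comm, ← ih, mul_comm, (Commute.all _ _).geom_sum₂_mul,
      Function.iterate_succ_apply', Function.iterate_succ_apply']
    unfold fc
    ring

theorem UNQ_diag (n k : ℕ) (c x : ℂ) : UNQ_Q n k c x x = mlt n k c x := by
  rw [UNQ_mlt]
  unfold UNQ_Q
  refine Finset.prod_congr rfl fun j _ => ?_
  have h1 : ∀ i ∈ Finset.range n, ((fc n c)^[j] x) ^ i * ((fc n c)^[j] x) ^ (n - 1 - i) =
      ((fc n c)^[j] x) ^ (n - 1) := by
    intro i hi
    rw [← pow_add]
    congr 1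
    have := Finset.mem_range.1 hi
    omega
  rw [Finset.sum_congr rfl h1, Finset.sum_const, Finset.card_range, nsmul_eq_mul]
  rfl

theorem UNQ (hMLN : MLN_stmt) : UNQ_stmt := by
  intro n N c r w₁ w₂ ζ₁ ζ₂ hn hr hb h1 h2 hζ1 hζ2 e1 e2 hne c' hc' heq
  have hζ : ζ₁ = ζ₂ := by rw [← e1 c' hc', ← e2 c' hc', heq]
  have hop : IsOpen (ball c r) := isOpen_ball
  have hc1 : ContinuousAt w₁ c' := h1.continuousOn.continuousAt (hop.mem_nhds hc')
  have hc2 : ContinuousAt w₂ c' := h2.continuousOn.continuousAt (hop.mem_nhds hc')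
  have hQ : ContinuousAt (fun d => UNQ_Q n N d (w₁ d) (w₂ d)) c' := by
    unfold UNQ_Q
    refine tendsto_finsetProd _ fun j _ => tendsto_finsetSum _ fun i _ => ?_
    have h3 : ContinuousAt (fun d => (fc n d)^[j] (w₁ d)) c' :=
      ContinuousAt.comp (f := fun d => (d, w₁ d)) (g := fun p : ℂ × ℂ => (fc n p.1)^[j] p.2)
        (UNQ_cont n j).continuousAt (continuousAt_id.prodMk hc1)
    have h4 : ContinuousAt (fun d => (fc n d)^[j] (w₂ d)) c' :=
      ContinuousAt.comp (f := fun d => (d, w₂ d)) (g := fun p : ℂ × ℂ => (fc n p.1)^[j] p.2)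
        (UNQ_cont n j).continuousAt (continuousAt_id.prodMk hc2)
    exact (h3.pow i).mul (h4.pow (n - 1 - i))
  have hQ0 : UNQ_Q n N c' (w₁ c') (w₂ c') ≠ 0 := by
    rw [← heq, UNQ_diag]
    exact hMLN n N c' (w₁ c') hn (hb hc') (by rw [e1 c' hc']; exact hζ1) N le_rfl
  have hev : ∀ᶠ d in 𝓝 c', w₁ d = w₂ d := by
    filter_upwards [hQ.eventually_ne hQ0, hop.mem_nhds hc'] with d hd hd2
    have h3 := UNQ_dd n N d (w₁ d) (w₂ d)
    rw [e1 d hd2, e2 d hd2, hζ, sub_self] at h3
    exact sub_eq_zero.1 ((mul_eq_zero.1 h3.symm).resolve_left hd)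
  have ha1 : AnalyticOnNhd ℂ w₁ (ball c r) := h1.analyticOnNhd hop
  have ha2 : AnalyticOnNhd ℂ w₂ (ball c r) := h2.analyticOnNhd hop
  exact hne (ha1.eqOn_of_preconnected_of_eventuallyEq ha2 (convex_ball c r).isPreconnected hc' hev
    (mem_ball_self hr))

end BR
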